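import Pool.Agent.P.MP_9484ad_co.Main

open Finset Pool.Agent.P.MP_9484ad_co

namespace Pool.Agent.Results.MP_9484ad_co.SqrtLower

theorem result (p : ℕ) [NeZero p] (hp : p.Prime) (h4 : p % 4 = 1) :
    ∃ y : Finset (ZMod p) → ℝ,
      y ∅ = 1 ∧
      (∀ S : Finset (ZMod p), (∃ a ∈ S, ∃ b ∈ S, a ≠ b ∧ ¬ IsSquare (a - b)) → y S = 0) ∧
      (∀ c : Finset (ZMod p) → ℝ, (∀ S : Finset (ZMod p), 2 < S.card → c S = 0) →
        0 ≤ ∑ S : Finset (ZMod p), ∑ T : Finset (ZMod p), c S * c T * y (S ∪ T)) ∧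
      √p / 1124 ≤ ∑ i : ZMod p, y {i} := by
  haveI : Fact p.Prime := ⟨hp⟩
  have p0 : (0 : ℝ) < p := by exact_mod_cast hp.pos
  set r := √(p : ℝ) with hr
  have hq : r ^ 2 = p := Real.sq_sqrt p0.le
  have r0 : 0 < r := Real.sqrt_pos.2 p0
  rcases le_or_gt r 1124 with h | h
  · refine ⟨fun S => if S ⊆ {0} then 1 else 0, by simp, ?_, fun c _ => ?_, ?_⟩
    · rintro S ⟨a, ha, b, hb, hab, -⟩
      exact if_neg fun hS => hab ((mem_singleton.1 (hS ha)).trans (mem_singleton.1 (hS hb)).symm)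
    · have e : ∀ S T : Finset (ZMod p), c S * c T * (if S ∪ T ⊆ {0} then (1 : ℝ) else 0) =
          (c S * if S ⊆ {0} then 1 else 0) * (c T * if T ⊆ {0} then 1 else 0) := fun S T => by
        by_cases h1 : S ⊆ {0} <;> by_cases h2 : T ⊆ {0} <;> simp only [union_subset_iff, h1, h2] <;>
          simp
      simp only [e, ← sum_mul_sum]
      exact mul_self_nonneg _
    · simp only [singleton_subset_iff, mem_singleton, sum_ite_eq', mem_univ, if_true]
      rw [div_le_one (by norm_num)]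
      exact h
  have hb : 10 ^ 5 ≤ p := by
    have : (10 : ℝ) ^ 5 ≤ p := by nlinarith
    exact_mod_cast this
  have hK : ringChar (ZMod p) ≠ 2 := by rw [ZMod.ringChar_zmod_n]; omega
  have h1 : IsSquare (-1 : ZMod p) := ZMod.exists_sq_eq_neg_one_iff.2 (by omega)
  have e3 : 1 / (1124 * r) * r = 1 / 1124 := by field_simp
  refine ⟨mom (1 / (1124 * r)) 1124, mom_empty,
    fun S ⟨a, ha, b, hb, hab, hsq⟩ => mom_nonedge ha hb hab fun e => hsq
      ((quadraticChar_one_iff_isSquare (sub_ne_zero.2 hab)).1 (by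
        rw [sg] at e; exact_mod_cast e)),
    sos_layer (r := r) (B := 562 * r ^ 3) hK h1 (by linarith) (by simpa using hq)
      (by positivity) (by norm_num) h.le (by rw [e3]; norm_num) (by rw [e3]; norm_num)
      (by
        rw [show (1 / (1124 * r)) ^ 3 * (562 * r ^ 3) = 562 / 1124 ^ 3 by field_simp]
        norm_num)
      (by rw [show (1124 : ℝ) / 2 = 562 by norm_num]; exact hard_prime p hb h4), ?_⟩
  simp only [mom_one, sum_const, card_univ, ZMod.card, nsmul_eq_mul]
  rw [← hq]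
  exact le_of_eq (by field_simp)

end Pool.Agent.Results.MP_9484ad_co.SqrtLower
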